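import Mathlib

set_option autoImplicit false

namespace Pool.Agent.H.MP_6a070e_co

open Matroid Set

variable {α : Type}

/-- The vector matroid. -/
noncomputable def vecM [Finite α] {k V : Type} [Field k] [AddCommGroup V] [Module k V]
    (φ : α → V) : Matroid α :=
  (IndepMatroid.ofFinite (E := univ) finite_univ (LinearIndepOn k φ) (by simp)
    (fun _ _ h h' => h.mono h') (by
      intro I J hI hJ hIJ
      classical
      by_contra h
      push Not at h
      have := Fintype.ofFinite I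
      have := Fintype.ofFinite J
      have h1 : Submodule.span k (range fun j : J => φ j) ≤
          Submodule.span k (range fun j : I => φ j) := by
        rw [Submodule.span_le]
        rintro _ ⟨⟨e, he⟩, rfl⟩
        by_cases h2 : e ∈ I
        · exact Submodule.subset_span ⟨⟨e, h2⟩, rfl⟩
        · have h3 := h e he h2
          rw [linearIndepOn_insert h2, not_and_or, not_not, image_eq_range] at h3
          exact h3.resolve_left (not_not.2 hI)
      have : FiniteDimensional k (Submodule.span k (range fun j : I => φ j)) :=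
        FiniteDimensional.span_of_finite _ (finite_range _)
      have h2 := Submodule.finrank_mono h1
      rw [finrank_span_eq_card hI, finrank_span_eq_card hJ] at h2
      rw [← Nat.card_coe_set_eq, ← Nat.card_coe_set_eq, Nat.card_eq_fintype_card,
        Nat.card_eq_fintype_card] at hIJ
      omega) (fun _ _ => subset_univ _)).matroid

lemma li2 {V : Type} [AddCommGroup V] [Module (ZMod 2) V] (φ : α → V) (I : Set α) :
    LinearIndepOn (ZMod 2) φ I ↔ ∀ T : Finset α, ↑T ⊆ I → ∑ e ∈ T, φ e = 0 → T = ∅ := by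
  classical
  rw [linearIndepOn_iff']
  refine ⟨fun h T hT h0 => Finset.eq_empty_of_forall_notMem fun e he =>
    one_ne_zero (h T (fun _ => 1) hT (by simpa using h0) e he), fun h T g hT h0 e he => ?_⟩
  have h1 : ∀ x : ZMod 2, x ≠ 0 → x = 1 := by decide
  have := h (T.filter fun i => g i ≠ 0) (fun i hi => hT (Finset.mem_filter.1 hi).1) (by
    rw [← h0, Finset.sum_filter]
    refine Finset.sum_congr rfl fun i _ => ?_
    split_ifs with h2
    · rw [h1 _ h2, one_smul]
    · rw [not_not.1 h2, zero_smul])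
  by_contra h2
  have h3 : e ∈ T.filter fun i => g i ≠ 0 := Finset.mem_filter.2 ⟨he, h2⟩
  rw [this] at h3
  simp at h3

section
variable [Finite α] {V : Type} [AddCommGroup V] [Module (ZMod 2) V] (φ : α → V)

lemma ind (I : Set α) : (vecM (k := ZMod 2) φ).Indep I ↔ LinearIndepOn (ZMod 2) φ I := Iff.rfl

lemma gr : (vecM (k := ZMod 2) φ).E = univ := rfl

/-- The support of a functional. -/
def D (f : V →ₗ[ZMod 2] ZMod 2) : Set α := {e | f (φ e) ≠ 0}

lemma meets (hs : ∀ f : V →ₗ[ZMod 2] ZMod 2, f ≠ 0 → (D φ f).Nonempty) (X : Set α) :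
    (∀ B, (vecM (k := ZMod 2) φ).IsBase B → (X ∩ B).Nonempty) ↔
      ∃ f : V →ₗ[ZMod 2] ZMod 2, f ≠ 0 ∧ D φ f ⊆ X := by
  constructor
  · intro h
    by_contra hn
    push Not at hn
    obtain ⟨b, hb, -, hsp, hli⟩ := exists_linearIndepOn_extension (K := ZMod 2) (v := φ)
      (s := ∅) (t := Xᶜ) (by simp) (empty_subset _)
    have htop : Submodule.span (ZMod 2) (φ '' b) = ⊤ := by
      by_contra h1
      obtain ⟨f, hf, hle⟩ := Submodule.exists_le_ker_of_lt_top _ (lt_top_iff_ne_top.2 h1)
      refine hn f hf fun e he => ?_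
      by_contra h2
      exact he (hle (hsp ⟨e, h2, rfl⟩))
    have hB : (vecM (k := ZMod 2) φ).IsBase b := by
      refine Indep.isBase_of_forall_insert ((ind φ b).2 hli) fun e he h2 => ?_
      rw [ind, linearIndepOn_insert he.2, htop] at h2
      exact h2.2 Submodule.mem_top
    obtain ⟨e, he, heb⟩ := h b hB
    exact hb heb he
  · rintro ⟨f, hf, hX⟩ B hB
    by_contra hn
    obtain ⟨e, he⟩ := hs f hf
    have h0 : Submodule.span (ZMod 2) (φ '' B) ≤ LinearMap.ker f := by
      rw [Submodule.span_le]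
      rintro _ ⟨x, hx, rfl⟩
      by_contra h2
      exact hn ⟨x, hX h2, hx⟩
    have heB : e ∉ B := fun h2 => hn ⟨e, hX he, h2⟩
    have := (hB.insert_dep (e := e) ⟨trivial, heB⟩).not_indep
    rw [ind, linearIndepOn_insert heB, not_and_or, not_not] at this
    exact he (h0 (this.resolve_left (not_not.2 hB.indep)))

lemma cocirc (hi : ∀ f g : V →ₗ[ZMod 2] ZMod 2, f ≠ 0 → g ≠ 0 → (D φ f ∩ D φ g).Nonempty)
    (X : Set α) : (vecM (k := ZMod 2) φ).IsCocircuit X ↔
      ∃ f : V →ₗ[ZMod 2] ZMod 2, f ≠ 0 ∧ X = D φ f := by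
  have hs : ∀ f : V →ₗ[ZMod 2] ZMod 2, f ≠ 0 → (D φ f).Nonempty := fun f hf =>
    (hi f f hf hf).mono inter_subset_left
  rw [isCocircuit_iff_minimal]
  simp only [meets φ hs]
  constructor
  · rintro ⟨⟨f, hf, hX⟩, hm⟩
    exact ⟨f, hf, (hm ⟨f, hf, Subset.rfl⟩ hX).antisymm hX⟩
  · rintro ⟨f, hf, rfl⟩
    refine ⟨⟨f, hf, Subset.rfl⟩, ?_⟩
    rintro Y ⟨g, hg, hY⟩ hle
    by_cases h : f = g
    · rw [h]; exact hY
    · obtain ⟨e, h1, h2⟩ := hi (f - g) g (sub_ne_zero.2 h) hg
      have h3 : f (φ e) ≠ 0 := hle (hY h2)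
      have h4 : ∀ x y : ZMod 2, x ≠ 0 → y ≠ 0 → x - y = 0 := by decide
      exact absurd (h4 _ _ h3 h2) h1

lemma circ {K : Set α} (hK : (vecM (k := ZMod 2) φ).IsCircuit K) :
    ∃ T : Finset α, K = T ∧ T.Nonempty ∧ ∑ e ∈ T, φ e = 0 := by
  have h := hK.not_indep
  rw [ind, li2] at h
  push Not at h
  obtain ⟨T, hT, h0, hne⟩ := h
  refine ⟨T, (hK.eq_of_not_indep_subset (fun h1 => ?_) hT).symm, hne, h0⟩
  rw [ind, li2] at h1
  exact hne.ne_empty (h1 T Subset.rfl h0)

lemma even {K : Set α} (hK : (vecM (k := ZMod 2) φ).IsCircuit K) (f : V →ₗ[ZMod 2] ZMod 2) :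
    Even (D φ f ∩ K).ncard := by
  classical
  obtain ⟨T, rfl, -, h0⟩ := circ φ hK
  have h1 : D φ f ∩ T = ↑(T.filter fun e => f (φ e) ≠ 0) := by
    ext e; simp [D, and_comm]
  rw [h1, ncard_coe_finset, ← ZMod.natCast_eq_zero_iff_even, Finset.card_filter]
  have h2 := congrArg f h0
  rw [map_sum, map_zero] at h2
  refine Eq.trans ?_ h2
  push_cast
  refine Finset.sum_congr rfl fun e _ => ?_
  generalize f (φ e) = x
  revert x; decide

end

/-- Bit vectors. -/
def bv (x : ℕ) (i : Fin 10) : ZMod 2 := if x.testBit i then 1 else 0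

def col (e : Fin 31) : ℕ :=
  (1954659847794304983110880501053871939362451030309994648368232027681952543783173016574074554401
    >>> (10 * e.val)) % 1024

def par : ℕ :=
  74146578472109212997136511361482254487891641386702620145716156204378150869765806841403385319857558565549512234915555076261584853249966913297281241601813858394614116897041089993247811088911534355298428851353473257124296480147861272197456166579083811387730393363010282273585299534106637649680409542459252107670

def φ (e : Fin 31) : Fin 10 → ZMod 2 := bv (col e)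

lemma bv_xor (x y : ℕ) : bv (x ^^^ y) = bv x + bv y := by
  funext i
  simp only [bv, Nat.testBit_xor, Pi.add_apply]
  cases x.testBit i <;> cases y.testBit i <;> decide

lemma bv_zero {x : ℕ} (hx : x < 2 ^ 10) (h : bv x = 0) : x = 0 := by
  refine Nat.eq_of_testBit_eq fun i => ?_
  rw [Nat.zero_testBit]
  by_cases hi : i < 10
  · have := congrFun h ⟨i, hi⟩
    simp only [bv, Pi.zero_apply] at this
    by_contra h2
    rw [if_pos (by simpa using h2)] at this
    exact one_ne_zero this
  · exact Nat.testBit_lt_two_pow (hx.trans_le (Nat.pow_le_pow_right (by norm_num) (by omega)))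

lemma parity : ∀ x < 1024, ∑ i, bv x i = if par.testBit x then 1 else 0 := by decide +kernel

lemma weights : ∀ n < 1024, n ≠ 0 →
    (Finset.univ.filter fun e : Fin 31 => par.testBit (n &&& col e) = true).card ∈ Finset.Icc 12 20 := by
  decide +kernel

def L : List ℕ := [0, 33, 258, 483, 324, 997, 742, 135, 840, 809, 106, 203, 300, 973, 174, 655, 464,
  593, 722, 403, 788, 533, 694, 887, 88, 921, 378, 635, 444, 253, 574, 959]

def msk : ℕ :=
  1339385838821319189580041503743009471256775868672275257354123486904978337843774895170864143624684044316768624617672421615319838316031513214004951753366707378911674696611213494522020601367665160130215209765181223045298168557506887956618579779581530805856611932475619198876676041256144245568993455243265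

lemma sidon : (L.all fun a => L.all fun b => L.all fun c =>
    !(msk.testBit (a ^^^ b ^^^ c)) || a == b || a == c || b == c) = true := by decide +kernel

lemma mskL : ∀ d ∈ L, msk.testBit d = true := by decide +kernel

lemma colL : ∀ e, col e ∈ L ∧ col e ≠ 0 ∧ col e < 2 ^ 10 := by decide +kernel

lemma col_inj : ∀ e f, col e = col f → e = f := by decide +kernel

lemma four {a b c d : ℕ} (ha : a ∈ L) (hb : b ∈ L) (hc : c ∈ L) (hd : d ∈ L)
    (hl : a < 2 ^ 10 ∧ b < 2 ^ 10 ∧ c < 2 ^ 10 ∧ d < 2 ^ 10)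
    (h : bv a + bv b + bv c + bv d = 0) : a = b ∨ a = c ∨ b = c := by
  rw [← bv_xor, ← bv_xor, ← bv_xor] at h
  have h1 := bv_zero (Nat.xor_lt_two_pow (Nat.xor_lt_two_pow
    (Nat.xor_lt_two_pow hl.1 hl.2.1) hl.2.2.1) hl.2.2.2) h
  rw [Nat.xor_eq_zero_iff] at h1
  have h2 := sidon
  simp only [List.all_eq_true, Bool.or_eq_true, Bool.not_eq_true', beq_iff_eq] at h2
  have h3 := h2 a ha b hb c hc
  rw [h1, mskL d hd] at h3
  simpa [or_assoc] using h3

lemma bv0 : bv 0 = 0 := by funext i; simp [bv]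

lemma five (T : Finset (Fin 31)) (hT : T.Nonempty) (h : ∑ e ∈ T, φ e = 0) : 5 ≤ T.card := by
  by_contra hlt
  have h0 : (0 : ℕ) ∈ L := by decide
  have hp := hT.card_pos
  have hc : T.card = 1 ∨ T.card = 2 ∨ T.card = 3 ∨ T.card = 4 := by omega
  have z : (0 : ℕ) < 2 ^ 10 := by norm_num
  rcases hc with hc | hc | hc | hc
  · obtain ⟨a, rfl⟩ := Finset.card_eq_one.1 hc
    rw [Finset.sum_singleton] at h
    exact (colL a).2.1 (bv_zero (colL a).2.2 h)
  · obtain ⟨a, b, hab, rfl⟩ := Finset.card_eq_two.1 hc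
    rw [Finset.sum_pair hab] at h
    rcases four (colL a).1 (colL b).1 h0 h0 ⟨(colL a).2.2, (colL b).2.2, z, z⟩
      (by rw [bv0, add_zero, add_zero]; exact h) with h | h | h
    · exact hab (col_inj _ _ h)
    · exact (colL a).2.1 h
    · exact (colL b).2.1 h
  · obtain ⟨a, b, c, hab, hac, hbc, rfl⟩ := Finset.card_eq_three.1 hc
    rw [Finset.sum_insert (by simp [hab, hac]), Finset.sum_pair hbc, ← add_assoc] at h
    rcases four (colL a).1 (colL b).1 (colL c).1 h0 ⟨(colL a).2.2, (colL b).2.2, (colL c).2.2, z⟩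
      (by rw [bv0, add_zero]; exact h) with h | h | h
    · exact hab (col_inj _ _ h)
    · exact hac (col_inj _ _ h)
    · exact hbc (col_inj _ _ h)
  · obtain ⟨d, S, hd, rfl, hS⟩ := Finset.card_eq_succ.1 hc
    obtain ⟨a, b, c, hab, hac, hbc, rfl⟩ := Finset.card_eq_three.1 hS
    rw [Finset.sum_insert hd, Finset.sum_insert (by simp [hab, hac]), Finset.sum_pair hbc,
      add_comm, ← add_assoc] at h
    rcases four (colL a).1 (colL b).1 (colL c).1 (colL d).1
      ⟨(colL a).2.2, (colL b).2.2, (colL c).2.2, (colL d).2.2⟩ h with h | h | h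
    · exact hab (col_inj _ _ h)
    · exact hac (col_inj _ _ h)
    · exact hbc (col_inj _ _ h)

lemma expand (f : (Fin 10 → ZMod 2) →ₗ[ZMod 2] ZMod 2) (v : Fin 10 → ZMod 2) :
    f v = ∑ i, v i * f (Pi.single i 1) := by
  conv_lhs => rw [← Finset.univ_sum_single v]
  rw [map_sum]
  refine Finset.sum_congr rfl fun i _ => ?_
  rw [← smul_eq_mul, ← map_smul, ← Pi.single_smul, smul_eq_mul, mul_one]

lemma wt (f : (Fin 10 → ZMod 2) →ₗ[ZMod 2] ZMod 2) (hf : f ≠ 0) :
    12 ≤ (D φ f).ncard ∧ (D φ f).ncard ≤ 20 := by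
  set n := Nat.ofBits fun i : Fin 10 => decide (f (Pi.single i 1) = 1) with hn
  have hlt : n < 1024 := Nat.ofBits_lt_two_pow _
  have hb : ∀ i, bv n i = f (Pi.single i 1) := by
    intro i
    simp only [bv, hn, Nat.testBit_ofBits_lt _ _ i.2]
    generalize f (Pi.single i 1) = x
    revert x; decide
  have hne : n ≠ 0 := by
    intro h
    refine hf (LinearMap.ext fun v => ?_)
    rw [expand]
    simp [← hb, h, bv0]
  have h1 : D φ f = ↑(Finset.univ.filter fun e : Fin 31 => par.testBit (n &&& col e) = true) := by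
    ext e
    have h2 : f (φ e) = ∑ i, bv (n &&& col e) i := by
      rw [expand]
      refine Finset.sum_congr rfl fun i _ => ?_
      rw [← hb]
      simp only [φ, bv, Nat.testBit_and]
      cases n.testBit i <;> cases (col e).testBit i <;> decide
    rw [parity _ (lt_of_le_of_lt Nat.and_le_left hlt)] at h2
    simp only [D, h2, mem_setOf_eq, Finset.coe_filter, Finset.mem_univ, true_and]
    split_ifs with h3 <;> simp [h3]
  rw [h1, ncard_coe_finset]
  exact Finset.mem_Icc.1 (weights n hlt hne)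

lemma inter (f g : (Fin 10 → ZMod 2) →ₗ[ZMod 2] ZMod 2) (hf : f ≠ 0) (hg : g ≠ 0) :
    (D φ f ∩ D φ g).Nonempty := by
  by_contra h
  have hd : Disjoint (D φ f) (D φ g) := disjoint_iff_inter_eq_empty.2 (not_nonempty_iff_eq_empty.1 h)
  have h1 := wt f hf
  have h2 := wt g hg
  have hu : D φ f ∪ D φ g ⊆ D φ (f + g) := by
    intro e he
    have h3 : ¬ (f (φ e) ≠ 0 ∧ g (φ e) ≠ 0) := fun h4 => h ⟨e, h4⟩
    have h4 : f (φ e) ≠ 0 ∨ g (φ e) ≠ 0 := he
    show f (φ e) + g (φ e) ≠ 0
    revert h3 h4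
    generalize f (φ e) = x
    generalize g (φ e) = y
    revert x y; decide
  have h5 := ncard_le_ncard hu (toFinite _)
  rw [ncard_union_eq hd] at h5
  have h6 : f + g ≠ 0 := by
    intro h7
    have : D φ (f + g) = ∅ := by rw [h7]; ext e; simp [D]
    rw [this, ncard_empty] at h5
    omega
  have := (wt _ h6).2
  omega

lemma pair (e e' : Fin 31) : ∃ f : (Fin 10 → ZMod 2) →ₗ[ZMod 2] ZMod 2,
    f ≠ 0 ∧ e ∈ D φ f ∧ e' ∈ D φ f := by
  have hz : ∀ a, ∃ i, φ a i ≠ 0 := fun a => by
    by_contra h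
    push Not at h
    exact (colL a).2.1 (bv_zero (colL a).2.2 (funext h))
  suffices ∃ f : (Fin 10 → ZMod 2) →ₗ[ZMod 2] ZMod 2, e ∈ D φ f ∧ e' ∈ D φ f by
    obtain ⟨f, h1, h2⟩ := this
    exact ⟨f, by rintro rfl; exact h1 rfl, h1, h2⟩
  obtain ⟨i, hi⟩ := hz e
  obtain ⟨j, hj⟩ := hz e'
  by_cases h1 : φ e' i ≠ 0
  · exact ⟨LinearMap.proj i, hi, h1⟩
  by_cases h2 : φ e j ≠ 0
  · exact ⟨LinearMap.proj j, h2, hj⟩
  push Not at h1 h2
  refine ⟨LinearMap.proj (R := ZMod 2) (φ := fun _ : Fin 10 => ZMod 2) i +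
    LinearMap.proj (R := ZMod 2) (φ := fun _ : Fin 10 => ZMod 2) j, ?_, ?_⟩
  · show φ e i + φ e j ≠ 0
    rwa [h2, add_zero]
  · show φ e' i + φ e' j ≠ 0
    rwa [h1, zero_add]

end Pool.Agent.H.MP_6a070e_co
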